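import Mathlib
import Pool.Agent.H7.UC

namespace Pool.Agent.Results.MP_848b0a_co.Equiv

open Finset

section
variable {α : Type} [Fintype α] [DecidableEq α]

/-- Union-closed over the ground set `α` (no empty set, contains the ground set). -/
def UC (F : Finset (Finset α)) : Prop := ∅ ∉ F ∧ univ ∈ F ∧ ∀ A ∈ F, ∀ B ∈ F, A ∪ B ∈ F

/-- All nonempty subsets of the ground set. -/
def Pn (α : Type) [Fintype α] [DecidableEq α] : Finset (Finset α) := {A | A.Nonempty}

open Classical in
/-- The closure of a family. -/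
noncomputable def clos (F : Finset (Finset α)) : Finset (Finset α) :=
  {A ∈ Pn α | UC (insert A F)}

/-- `F` has density exactly `k`. -/
def IsDense (F : Finset (Finset α)) (k : ℕ) : Prop :=
  clos^[k] F = Pn α ∧ ∀ j < k, clos^[j] F ≠ Pn α

/-- The half condition. -/
def Half (F : Finset (Finset α)) : Prop := ∃ i, #F / 2 ≤ #{A ∈ F | i ∈ A}

end

/-- The union-closed sets conjecture. -/
def Frankl : Prop :=
  ∀ (α : Type) [Fintype α] [DecidableEq α] (F : Finset (Finset α)),
    (∀ A ∈ F, ∀ B ∈ F, A ∪ B ∈ F) → (∃ A ∈ F, A.Nonempty) → ∃ i, #F ≤ 2 * #{A ∈ F | i ∈ A}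

variable {α : Type} [Fintype α] [DecidableEq α]

theorem mem_clos {F : Finset (Finset α)} (h : UC F) {A : Finset α} :
    A ∈ clos F ↔ A.Nonempty ∧ ∀ B ∈ F, B ⊆ A ∨ A ∪ B ∈ F := by
  simp only [clos, Pn, mem_filter, mem_univ, true_and, UC, mem_insert]
  refine and_congr_right fun a => ⟨fun b B hB => ?_, fun b => ⟨?_, Or.inr h.2.1, ?_⟩⟩
  · exact (b.2.2 A (Or.inl rfl) B (Or.inr hB)).imp_left union_eq_left.1
  · rintro (e | e)
    · exact a.ne_empty e.symm
    · exact h.1 e
  · rintro X (rfl | hX) Y (rfl | hY)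
    · simp
    · exact (b Y hY).imp_left union_eq_left.2
    · rw [union_comm]
      exact (b X hX).imp_left union_eq_left.2
    · exact Or.inr (h.2.2 X hX Y hY)

theorem uc_clos {F : Finset (Finset α)} (h : UC F) : UC (clos F) := by
  refine ⟨fun e => by simpa using ((mem_clos h).1 e).1, (mem_clos h).2
    ⟨nonempty_iff_ne_empty.2 fun e => h.1 (e ▸ h.2.1), fun B _ => Or.inl (subset_univ _)⟩,
    fun A hA B hB => ?_⟩
  rw [mem_clos h] at hA hB ⊢
  refine ⟨hA.1.mono subset_union_left, fun C hC => ?_⟩
  rcases hB.2 C hC with a | a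
  · exact Or.inl (a.trans subset_union_right)
  · rw [union_assoc]
    exact (hA.2 _ a).imp_left fun b => subset_union_right.trans (b.trans subset_union_left)

def Inv (x y : α) (i : ℕ) (F : Finset (Finset α)) : Prop :=
  UC F ∧ (∀ S : Finset α, S.Nonempty → x ∉ S → y ∉ S → Fintype.card α ≤ #S + 2 + i → S ∈ F) ∧
    (∀ S : Finset α, S.Nonempty → Fintype.card α ≤ #S + i → S ∈ F) ∧
    (∀ B ∈ F, x ∈ B → y ∉ B → Fintype.card α ≤ #B + i) ∧
    (∀ B ∈ F, y ∈ B → x ∉ B → Fintype.card α ≤ #B + i) ∧
    ∀ B ∈ F, x ∈ B → y ∈ B → ∀ U, B ⊆ U → U ∈ F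

theorem key {x y : α} {i : ℕ} {F : Finset (Finset α)} (h : UC F)
    (a : ∀ S : Finset α, S.Nonempty → x ∉ S → y ∉ S → Fintype.card α ≤ #S + 2 + i → S ∈ F)
    (c : ∀ B ∈ F, x ∈ B → y ∉ B → Fintype.card α ≤ #B + i) :
    ∀ B ∈ clos F, x ∈ B → y ∉ B → Fintype.card α ≤ #B + (i + 1) := by
  intro B hB hx hy
  by_contra n
  have p : 0 < #B := card_pos.2 ⟨x, hx⟩
  obtain ⟨C, c1, c2, c3⟩ := exists_subsuperset_card_eq (s := B) (t := univ.erase y)
    (n := Fintype.card α - 1 - i) (fun z hz => mem_erase.2 ⟨fun e => hy (e ▸ hz), mem_univ _⟩)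
    (by omega) (by rw [card_erase_of_mem (mem_univ _), card_univ]; omega)
  have yc : y ∉ C := fun t => by simpa using c2 t
  have e := card_erase_of_mem (c1 hx)
  have t := a (C.erase x) (card_pos.1 (by omega)) (notMem_erase _ _)
    (fun t => yc (mem_of_mem_erase t)) (by omega)
  have u : B ∪ C.erase x = C := (union_subset c1 (erase_subset _ _)).antisymm fun z hz => by
    by_cases e : z = x
    · exact mem_union_left _ (e ▸ hx)
    · exact mem_union_right _ (mem_erase.2 ⟨e, hz⟩)
  rcases ((mem_clos h).1 hB).2 _ t with s | s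
  · rw [union_eq_left.2 s] at u
    rw [u] at n
    omega
  · rw [u] at s
    have := c C s (c1 hx) yc
    omega

theorem step {x y : α} {i : ℕ} {F : Finset (Finset α)} (h : Inv x y i F) :
    Inv x y (i + 1) (clos F) := by
  obtain ⟨u, a, b, c, c', d⟩ := h
  have lt : ∀ S B : Finset α, ¬B ⊆ S → #S < #(S ∪ B) := fun S B t =>
    card_lt_card (subset_union_left.ssubset_of_ne fun e => t (union_eq_left.1 e.symm))
  refine ⟨uc_clos u, fun S s hx hy n => (mem_clos u).2 ⟨s, fun B hB => ?_⟩,
    fun S s n => (mem_clos u).2 ⟨s, fun B hB => ?_⟩, key u a c,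
    key u (fun S s hy hx => a S s hx hy) c', fun B hB hx hy U hU =>
      (mem_clos u).2 ⟨⟨x, hU hx⟩, fun C hC => ?_⟩⟩
  · refine or_iff_not_imp_left.2 fun t => ?_
    have l := lt S B t
    have m := card_le_card (subset_union_right (s₁ := S) (s₂ := B))
    have s' := s.mono (subset_union_left (s₂ := B))
    by_cases e : x ∈ B <;> by_cases f : y ∈ B
    · exact d B hB e f _ subset_union_right
    · exact b _ s' (by have := c B hB e f; omega)
    · exact b _ s' (by have := c' B hB f e; omega)
    · exact a _ s' (by simp [hx, e]) (by simp [hy, f]) (by omega)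
  · exact or_iff_not_imp_left.2 fun t =>
      b _ (s.mono subset_union_left) (by have := lt S B t; omega)
  · exact (((mem_clos u).1 hB).2 C hC).imp (·.trans hU) fun t =>
      d _ t (mem_union_left _ hx) (mem_union_left _ hy) _ (union_subset_union_left hU)

theorem dense {x y : α} (ne : x ≠ y) {F : Finset (Finset α)} (h : Inv x y 0 F) :
    IsDense F (Fintype.card α - 1) := by
  have a : ∀ i, Inv x y i (clos^[i] F) := fun i => by
    induction i with
    | zero => exact h
    | succ i ih =>
      rw [Function.iterate_succ_apply']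
      exact step ih
  refine ⟨Subset.antisymm (fun S s => ?_) fun S s => ?_, fun j hj e => ?_⟩
  · exact mem_filter.2 ⟨mem_univ _, nonempty_iff_ne_empty.2 fun e => (a _).1.1 (e ▸ s)⟩
  · have s := (mem_filter.1 s).2
    exact (a _).2.2.1 S s (by have := s.card_pos; omega)
  · have := (a j).2.2.2.1 {x} (by simp [e, Pn]) (by simp) (by simpa using ne.symm)
    rw [card_singleton] at this
    omega

theorem result :
    (∀ (α : Type) [Fintype α] [DecidableEq α] (F : Finset (Finset α)),
      UC F → IsDense F (Fintype.card α - 1) → Half F) ↔ Frankl := by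
  refine ⟨fun q α _ _ G hU hn => ?_, fun q α _ _ F u _ => ?_⟩
  · by_contra c
    push Not at c
    obtain ⟨β, _, _, ⟨z⟩, H, h0, h1, h2, h3⟩ := Pool.Agent.H7.UC.norm G hU hn c 4
    let m : Finset β → Finset (β ⊕ Bool) := fun A => A.map Function.Embedding.inl
    have mi : Function.Injective m := map_injective _
    have mr : ∀ A b, Sum.inr b ∉ m A := fun A b => by simp [m]
    let F := insert univ ((H.erase ∅).image m)
    have hF : ∀ B ∈ F, ∀ b, Sum.inr b ∈ B → B = univ := fun B hB b t => by
      rcases mem_insert.1 hB with e | e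
      · exact e
      · obtain ⟨A, -, rfl⟩ := mem_image.1 e
        exact absurd t (mr A b)
    have u : UC F := by
      refine ⟨fun e => ?_, mem_insert_self _ _, fun A hA B hB => ?_⟩
      · rcases mem_insert.1 e with e | e
        · exact univ_nonempty.ne_empty e.symm
        · obtain ⟨A, hA, e⟩ := mem_image.1 e
          exact (mem_erase.1 hA).1 (map_eq_empty.1 e)
      · rcases mem_insert.1 hA with rfl | a'
        · simp [F]
        rcases mem_insert.1 hB with rfl | b'
        · simp [F]
        obtain ⟨A, a, rfl⟩ := mem_image.1 a'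
        obtain ⟨B, b, rfl⟩ := mem_image.1 b'
        refine mem_insert_of_mem (mem_image.2 ⟨A ∪ B, mem_erase.2 ⟨fun e => ?_,
          h2 _ (mem_erase.1 a).2 _ (mem_erase.1 b).2⟩, map_union _ _⟩)
        exact (mem_erase.1 a).1 (union_eq_empty.1 e).1
    have I : Inv (Sum.inr true) (Sum.inr false) 0 F := by
      refine ⟨u, fun S _ hx hy n => ?_, fun S _ n => ?_, fun B hB hx hy => ?_,
        fun B hB hx hy => ?_, fun B hB hx _ U hU => ?_⟩
      · refine mem_insert_of_mem (mem_image.2 ⟨univ, mem_erase.2 ⟨(univ_nonempty_iff.2 ⟨z⟩).ne_empty,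
          h1⟩, (eq_of_subset_of_card_le (fun w hw => ?_) ?_).symm⟩)
        · rcases w with w | _ | _
          · simp [m]
          · exact absurd hw hy
          · exact absurd hw hx
        · simpa [m] using n
      · rw [eq_univ_of_card S ((card_le_univ S).antisymm n)]
        exact u.2.1
      · exact absurd (hF B hB _ hx ▸ mem_univ _) hy
      · exact absurd (hF B hB _ hx ▸ mem_univ _) hy
      · rw [hF B hB _ hx] at hU
        rw [univ_subset_iff.1 hU]
        exact u.2.1
    obtain ⟨i, hi⟩ := q _ F u (dense (by simp) I)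
    have cF : #F = #H := by
      rw [card_insert_of_notMem, card_image_of_injective _ mi, card_erase_add_one h0]
      intro e
      obtain ⟨A, -, e⟩ := mem_image.1 e
      exact mr A true (e ▸ mem_univ _)
    have k := h3 z
    rcases i with i | i
    · have : #{A ∈ F | Sum.inl i ∈ A} ≤ #(insert univ (({A ∈ H | i ∈ A} : Finset _).image m)) := by
        refine card_le_card fun A hA => ?_
        obtain ⟨a', b⟩ := mem_filter.1 hA
        refine mem_insert.2 ((mem_insert.1 a').imp_right fun e => ?_)
        obtain ⟨A, a, rfl⟩ := mem_image.1 e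
        exact mem_image_of_mem _ (mem_filter.2 ⟨(mem_erase.1 a).2, by simpa [m] using b⟩)
      have := this.trans ((card_insert_le _ _).trans (Nat.add_le_add_right card_image_le 1))
      have := h3 i
      omega
    · have : #{A ∈ F | Sum.inr i ∈ A} ≤ #({univ} : Finset (Finset (β ⊕ Bool))) :=
        card_le_card fun A hA => mem_singleton.2 (hF A (mem_filter.1 hA).1 i (mem_filter.1 hA).2)
      rw [card_singleton] at this
      omega
  · obtain ⟨i, hi⟩ := q α F u.2.2 ⟨univ, u.2.1, nonempty_iff_ne_empty.2 fun e => u.1 (e ▸ u.2.1)⟩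
    exact ⟨i, by omega⟩

end Pool.Agent.Results.MP_848b0a_co.Equiv
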